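import Mathlib

open scoped BigOperators ENNReal

namespace Pool.Agent.Results.MP_f45ea1_an.SemiNotAlmost

section Definitions

/-- `q` is a complete quasi-norm on the `𝕜`-vector space `X`, i.e. `(X, q)` is a quasi-Banach
space. -/
structure IsQuasiBanach (𝕜 : Type) [RCLike 𝕜] {X : Type} [AddCommGroup X] [Module 𝕜 X]
    (q : X → ℝ) : Prop where
  nonneg : ∀ x, 0 ≤ q x
  eq_zero_iff : ∀ x, q x = 0 ↔ x = 0
  smul : ∀ (c : 𝕜) (x : X), q (c • x) = ‖c‖ * q x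
  quasi_triangle : ∃ κ : ℝ, ∀ x y, q (x + y) ≤ κ * (q x + q y)
  complete : ∀ u : ℕ → X, (∀ δ > 0, ∃ N : ℕ, ∀ m ≥ N, ∀ n ≥ N, q (u m - u n) < δ) →
    ∃ x : X, ∀ δ > 0, ∃ N : ℕ, ∀ n ≥ N, q (u n - x) < δ

variable {𝕜 : Type} [RCLike 𝕜] {X : Type} [AddCommGroup X] [Module 𝕜 X]

/-- `(e n)` is a semi-normalized Markushevich basis of `(X, q)` with biorthogonal functionals
`(f n)`. -/
structure IsSemiNormalizedMBasis (q : X → ℝ) (e : ℕ → X) (f : ℕ → X →ₗ[𝕜] 𝕜) : Prop where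
  biorthogonal : ∀ k n, f k (e n) = if k = n then 1 else 0
  dense_span : ∀ x : X, ∀ δ > 0, ∃ y ∈ Submodule.span 𝕜 (Set.range e), q (x - y) < δ
  total : ∀ x : X, (∀ n, f n x = 0) → x = 0
  bounded : ∃ C : ℝ, ∀ n, q (e n) ≤ C ∧ ∀ x, ‖f n x‖ ≤ C * q x

/-- The coordinate projection `P_A(x) = ∑_{n ∈ A} f n x • e n`. -/
def proj (e : ℕ → X) (f : ℕ → X →ₗ[𝕜] 𝕜) (A : Finset ℕ) (x : X) : X :=
  ∑ n ∈ A, f n x • e n

/-- `A` is a greedy set of `x`. -/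
def IsGreedySet (f : ℕ → X →ₗ[𝕜] 𝕜) (x : X) (A : Finset ℕ) : Prop :=
  ∀ n ∈ A, ∀ k ∉ A, ‖f k x‖ ≤ ‖f n x‖

/-- `σ_m(x)`: the error of best `m`-term approximation with arbitrary coefficients. -/
noncomputable def sigma (𝕜 : Type) [RCLike 𝕜] {X : Type} [AddCommGroup X] [Module 𝕜 X]
    (q : X → ℝ) (e : ℕ → X) (m : ℕ) (x : X) : ℝ :=
  sInf {r : ℝ | ∃ (B : Finset ℕ) (a : ℕ → 𝕜), B.card ≤ m ∧ r = q (x - ∑ n ∈ B, a n • e n)}

/-- The basis is almost-greedy. -/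
def AlmostGreedy (q : X → ℝ) (e : ℕ → X) (f : ℕ → X →ₗ[𝕜] 𝕜) : Prop :=
  ∃ C : ℝ, ∀ (x : X) (A : Finset ℕ), IsGreedySet f x A →
    q (x - proj e f A x) ≤
      C * sInf {r : ℝ | ∃ B : Finset ℕ, B.card ≤ A.card ∧ r = q (x - proj e f B x)}

/-- The basis is semi-greedy. -/
def SemiGreedy (q : X → ℝ) (e : ℕ → X) (f : ℕ → X →ₗ[𝕜] 𝕜) : Prop :=
  ∃ C : ℝ, ∀ (x : X) (A : Finset ℕ), IsGreedySet f x A →
    ∃ a : ℕ → 𝕜, q (x - ∑ n ∈ A, a n • e n) ≤ C * sigma 𝕜 q e A.card x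

end Definitions

/-! ### The scalar function -/

section Scalar

variable {𝕜 : Type} [RCLike 𝕜]

/-- `ψ k s x = x * min (log (s / |x|)) k` -/
noncomputable def psi (k : ℕ) (s : ℝ) (x : 𝕜) : 𝕜 :=
  ((min (Real.log (s / ‖x‖)) k : ℝ) : 𝕜) * x

@[simp] lemma psi_zero (k : ℕ) (s : ℝ) : psi k s (0 : 𝕜) = 0 := by simp [psi]

lemma psi_smul (k : ℕ) (s : ℝ) (c x : 𝕜) (hc : c ≠ 0) :
    psi k (‖c‖ * s) (c * x) = c * psi k s x := by
  unfold psi
  rw [norm_mul, mul_div_mul_left _ _ (by simpa using hc)]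
  ring

lemma norm_psi_le (k : ℕ) (s : ℝ) (x : 𝕜) (hx : ‖x‖ ≤ s) : ‖psi k s x‖ ≤ k * ‖x‖ := by
  by_cases h0 : x = 0
  · simp [h0]
  · have hx0 : 0 < ‖x‖ := norm_pos_iff.2 h0
    unfold psi
    rw [norm_mul, RCLike.norm_ofReal]
    apply mul_le_mul_of_nonneg_right _ hx0.le
    have h1 : 0 ≤ Real.log (s / ‖x‖) := Real.log_nonneg ((one_le_div hx0).2 hx)
    rw [abs_of_nonneg (le_min h1 (Nat.cast_nonneg k))]
    exact min_le_right _ _

lemma abs_min_sub_min (u v k : ℝ) : |min u k - min v k| ≤ |u - v| := by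
  simpa using abs_min_sub_min_le_max u k v k

lemma norm_psi_sub (k : ℕ) {s s' : ℝ} (hs : 0 < s) (hss' : s ≤ s') (x : 𝕜) :
    ‖psi k s x - psi k s' x‖ ≤ ‖x‖ * (s' / s - 1) := by
  by_cases h0 : x = 0
  · simp [h0]
  · have hx0 : 0 < ‖x‖ := norm_pos_iff.2 h0
    have hs' : 0 < s' := lt_of_lt_of_le hs hss'
    unfold psi
    rw [← sub_mul, norm_mul, mul_comm, ← RCLike.ofReal_sub, RCLike.norm_ofReal]
    apply mul_le_mul_of_nonneg_left _ hx0.le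
    refine (abs_min_sub_min _ _ _).trans ?_
    rw [Real.log_div hs.ne' hx0.ne', Real.log_div hs'.ne' hx0.ne', abs_sub_comm]
    have h1 : Real.log s' - Real.log ‖x‖ - (Real.log s - Real.log ‖x‖) = Real.log (s' / s) := by
      rw [Real.log_div hs'.ne' hs.ne']; ring
    rw [h1, abs_of_nonneg (Real.log_nonneg ((one_le_div hs).2 hss'))]
    exact Real.log_le_sub_one_of_pos (div_pos hs' hs)

/-- near additivity -/
lemma norm_psi_add_aux (k : ℕ) {s : ℝ} (hs : 0 < s) (x y : 𝕜) (hxy : ‖y‖ ≤ ‖x‖) :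
    ‖psi k s (x + y) - psi k s x - psi k s y‖ ≤ 3 * ‖x‖ := by
  by_cases hy : y = 0
  · simp [hy]
  have hy0 : 0 < ‖y‖ := norm_pos_iff.2 hy
  have hx0 : 0 < ‖x‖ := lt_of_lt_of_le hy0 hxy
  have hid : psi k s (x + y) - psi k s x - psi k s y =
      ((min (Real.log (s / ‖x + y‖)) k - min (Real.log (s / ‖x‖)) k : ℝ) : 𝕜) * (x + y) +
      ((min (Real.log (s / ‖x‖)) k - min (Real.log (s / ‖y‖)) k : ℝ) : 𝕜) * y := by
    unfold psi; push_cast; ring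
  rw [hid]
  have h2 : ‖((min (Real.log (s / ‖x‖)) k - min (Real.log (s / ‖y‖)) k : ℝ) : 𝕜) * y‖ ≤ ‖x‖ := by
    rw [norm_mul, RCLike.norm_ofReal]
    have h3 := abs_min_sub_min (Real.log (s / ‖x‖)) (Real.log (s / ‖y‖)) k
    have h4 : |Real.log (s / ‖x‖) - Real.log (s / ‖y‖)| ≤ ‖x‖ / ‖y‖ - 1 := by
      rw [Real.log_div hs.ne' hx0.ne', Real.log_div hs.ne' hy0.ne', abs_sub_comm]
      have h1 : Real.log s - Real.log ‖y‖ - (Real.log s - Real.log ‖x‖) =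
          Real.log (‖x‖ / ‖y‖) := by
        rw [Real.log_div hx0.ne' hy0.ne']; ring
      rw [h1, abs_of_nonneg (Real.log_nonneg ((one_le_div hy0).2 hxy))]
      exact Real.log_le_sub_one_of_pos (div_pos hx0 hy0)
    have h5 := mul_le_mul_of_nonneg_right (h3.trans h4) hy0.le
    refine h5.trans ?_
    rw [sub_mul, div_mul_cancel₀ _ hy0.ne']
    linarith
  have h1 : ‖((min (Real.log (s / ‖x + y‖)) k - min (Real.log (s / ‖x‖)) k : ℝ) : 𝕜) *
      (x + y)‖ ≤ 2 * ‖x‖ := by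
    by_cases hz : x + y = 0
    · rw [hz]; simp
    have hz0 : 0 < ‖x + y‖ := norm_pos_iff.2 hz
    rw [norm_mul, RCLike.norm_ofReal]
    have h3 := abs_min_sub_min (Real.log (s / ‖x + y‖)) (Real.log (s / ‖x‖)) k
    have h6 : ‖x + y‖ ≤ ‖x‖ + ‖y‖ := norm_add_le x y
    rcases le_total ‖x + y‖ ‖x‖ with hle | hle
    · have h4 : |Real.log (s / ‖x + y‖) - Real.log (s / ‖x‖)| ≤ ‖x‖ / ‖x + y‖ - 1 := by
        rw [Real.log_div hs.ne' hx0.ne', Real.log_div hs.ne' hz0.ne']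
        have h1 : Real.log s - Real.log ‖x + y‖ - (Real.log s - Real.log ‖x‖) =
            Real.log (‖x‖ / ‖x + y‖) := by
          rw [Real.log_div hx0.ne' hz0.ne']; ring
        rw [h1, abs_of_nonneg (Real.log_nonneg ((one_le_div hz0).2 hle))]
        exact Real.log_le_sub_one_of_pos (div_pos hx0 hz0)
      have h5 := mul_le_mul_of_nonneg_right (h3.trans h4) hz0.le
      refine h5.trans ?_
      rw [sub_mul, div_mul_cancel₀ _ hz0.ne']
      linarith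
    · have h4 : |Real.log (s / ‖x + y‖) - Real.log (s / ‖x‖)| ≤ ‖x + y‖ / ‖x‖ - 1 := by
        rw [Real.log_div hs.ne' hx0.ne', Real.log_div hs.ne' hz0.ne', abs_sub_comm]
        have h1 : Real.log s - Real.log ‖x‖ - (Real.log s - Real.log ‖x + y‖) =
            Real.log (‖x + y‖ / ‖x‖) := by
          rw [Real.log_div hz0.ne' hx0.ne']; ring
        rw [h1, abs_of_nonneg (Real.log_nonneg ((one_le_div hx0).2 hle))]
        exact Real.log_le_sub_one_of_pos (div_pos hz0 hx0)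
      have h7 : ‖x + y‖ / ‖x‖ - 1 ≤ 1 := by
        rw [sub_le_iff_le_add, div_le_iff₀ hx0]; linarith
      have h8 := h3.trans (h4.trans h7)
      have h9 := mul_le_mul_of_nonneg_right h8 hz0.le
      linarith
  refine (norm_add_le _ _).trans ?_
  linarith

lemma norm_psi_add (k : ℕ) {s : ℝ} (hs : 0 < s) (x y : 𝕜) :
    ‖psi k s (x + y) - psi k s x - psi k s y‖ ≤ 3 * (‖x‖ + ‖y‖) := by
  rcases le_total ‖y‖ ‖x‖ with h | h
  · have := norm_psi_add_aux k hs x y h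
    have := norm_nonneg y
    linarith
  · have h1 := norm_psi_add_aux k hs y x h
    have h2 : psi k s (x + y) - psi k s x - psi k s y =
        psi k s (y + x) - psi k s y - psi k s x := by rw [add_comm x y]; ring
    rw [h2]
    have := norm_nonneg x
    linarith

end Scalar

/-! ### The quasi-linear maps on `ℓ₁` -/

section Functional

variable {𝕜 : Type} [RCLike 𝕜]

/-- the Banach space `ℓ₁` -/
abbrev L1 (𝕜 : Type) [RCLike 𝕜] : Type := lp (fun _ : ℕ => 𝕜) 1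

lemma summable_norm (a : L1 𝕜) : Summable fun n => ‖a n‖ := by
  have := (lp.memℓp a).summable (p := 1) (by norm_num)
  simpa using this

lemma norm_eq (a : L1 𝕜) : ‖a‖ = ∑' n, ‖a n‖ := by
  have := lp.norm_eq_tsum_rpow (p := 1) (by norm_num) a
  simpa using this

lemma norm_apply_le (a : L1 𝕜) (n : ℕ) : ‖a n‖ ≤ ‖a‖ :=
  lp.norm_apply_le_norm (by norm_num) a n

/-- the map with a fixed normalisation `s` -/
noncomputable def Fs (k : ℕ) (s : ℝ) (a : L1 𝕜) : 𝕜 := ∑' n, psi k s (a n)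

/-- the `k`-th quasi-linear map
`F k a = ∑ a_n min (log (‖a‖₁ / |a_n|)) k` -/
noncomputable def F (k : ℕ) (a : L1 𝕜) : 𝕜 := Fs k ‖a‖ a

lemma summable_psi (k : ℕ) {s : ℝ} (a : L1 𝕜) (hs : ‖a‖ ≤ s) :
    Summable fun n => psi k s (a n) :=
  Summable.of_norm_bounded ((summable_norm a).mul_left (k : ℝ))
    fun n => norm_psi_le k s (a n) ((norm_apply_le a n).trans hs)

lemma norm_F_le (k : ℕ) (a : L1 𝕜) : ‖F k a‖ ≤ k * ‖a‖ := by
  unfold F Fs
  have h : ∀ n, ‖psi k ‖a‖ (a n)‖ ≤ k * ‖a n‖ := fun n =>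
    norm_psi_le k ‖a‖ (a n) (norm_apply_le a n)
  refine (tsum_of_norm_bounded ((summable_norm a).mul_left (k : ℝ)).hasSum h).trans ?_
  rw [tsum_mul_left, ← norm_eq]

lemma Fs_sub (k : ℕ) {s : ℝ} (a : L1 𝕜) (hs : ‖a‖ ≤ s) : ‖F k a - Fs k s a‖ ≤ s - ‖a‖ := by
  by_cases h0 : a = 0
  · have h1 : ∀ s, Fs k s (0 : L1 𝕜) = 0 := by
      intro s; unfold Fs; simp
    subst h0
    unfold F
    rw [h1, h1, sub_zero, norm_zero, norm_zero, sub_zero]
    rwa [norm_zero] at hs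
  · have ha : 0 < ‖a‖ := norm_pos_iff.2 h0
    unfold F Fs
    rw [← (summable_psi k a le_rfl).tsum_sub (summable_psi k a hs)]
    have h : ∀ n, ‖psi k ‖a‖ (a n) - psi k s (a n)‖ ≤ ‖a n‖ * (s / ‖a‖ - 1) := fun n =>
      norm_psi_sub k ha hs (a n)
    refine (tsum_of_norm_bounded ((summable_norm a).mul_right (s / ‖a‖ - 1)).hasSum h).trans ?_
    rw [tsum_mul_right, ← norm_eq, mul_sub, mul_div_cancel₀ _ ha.ne', mul_one]

lemma Fs_add (k : ℕ) {s : ℝ} (a b : L1 𝕜) (hs : ‖a‖ + ‖b‖ = s) (hs0 : 0 < s) :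
    ‖Fs k s (a + b) - Fs k s a - Fs k s b‖ ≤ 3 * (‖a‖ + ‖b‖) := by
  have ha : ‖a‖ ≤ s := by have := norm_nonneg b; linarith
  have hb : ‖b‖ ≤ s := by have := norm_nonneg a; linarith
  have hab : ‖a + b‖ ≤ s := hs ▸ norm_add_le a b
  unfold Fs
  rw [← (summable_psi k (a + b) hab).tsum_sub (summable_psi k a ha),
    ← ((summable_psi k (a + b) hab).sub (summable_psi k a ha)).tsum_sub (summable_psi k b hb)]
  have h : ∀ n, ‖psi k s ((a + b : L1 𝕜) n) - psi k s (a n) - psi k s (b n)‖ ≤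
      3 * (‖a n‖ + ‖b n‖) := fun n => norm_psi_add k hs0 (a n) (b n)
  have hsum : Summable fun n => 3 * (‖a n‖ + ‖b n‖) :=
    ((summable_norm a).add (summable_norm b)).mul_left 3
  refine (tsum_of_norm_bounded hsum.hasSum h).trans ?_
  rw [tsum_mul_left, (summable_norm a).tsum_add (summable_norm b), ← norm_eq, ← norm_eq]

@[simp] lemma F_zero (k : ℕ) : F k (0 : L1 𝕜) = 0 := by unfold F Fs; simp

lemma F_add (k : ℕ) (a b : L1 𝕜) : ‖F k (a + b) - F k a - F k b‖ ≤ 5 * (‖a‖ + ‖b‖) := by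
  by_cases h0 : ‖a‖ + ‖b‖ = 0
  · have ha : a = 0 := by
      have := norm_nonneg b; have := norm_nonneg a
      exact norm_eq_zero.1 (by linarith)
    have hb : b = 0 := by
      have := norm_nonneg b; have := norm_nonneg a
      exact norm_eq_zero.1 (by linarith)
    subst ha; subst hb; simp
  have hs0 : 0 < ‖a‖ + ‖b‖ := lt_of_le_of_ne (by positivity) (Ne.symm h0)
  have h1 := Fs_add k a b rfl hs0
  have h2 := Fs_sub k (s := ‖a‖ + ‖b‖) (a + b) (norm_add_le a b)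
  have h3 := Fs_sub k (s := ‖a‖ + ‖b‖) a (by have := norm_nonneg b; linarith)
  have h4 := Fs_sub k (s := ‖a‖ + ‖b‖) b (by have := norm_nonneg a; linarith)
  have hid : F k (a + b) - F k a - F k b =
      (Fs k (‖a‖ + ‖b‖) (a + b) - Fs k (‖a‖ + ‖b‖) a - Fs k (‖a‖ + ‖b‖) b) +
      (F k (a + b) - Fs k (‖a‖ + ‖b‖) (a + b)) - (F k a - Fs k (‖a‖ + ‖b‖) a) -
      (F k b - Fs k (‖a‖ + ‖b‖) b) := by ring
  rw [hid]
  have n1 := norm_sub_le ((Fs k (‖a‖ + ‖b‖) (a + b) - Fs k (‖a‖ + ‖b‖) a - Fs k (‖a‖ + ‖b‖) b) +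
      (F k (a + b) - Fs k (‖a‖ + ‖b‖) (a + b)) - (F k a - Fs k (‖a‖ + ‖b‖) a))
      (F k b - Fs k (‖a‖ + ‖b‖) b)
  have n2 := norm_sub_le ((Fs k (‖a‖ + ‖b‖) (a + b) - Fs k (‖a‖ + ‖b‖) a -
      Fs k (‖a‖ + ‖b‖) b) + (F k (a + b) - Fs k (‖a‖ + ‖b‖) (a + b)))
      (F k a - Fs k (‖a‖ + ‖b‖) a)
  have n3 := norm_add_le (Fs k (‖a‖ + ‖b‖) (a + b) - Fs k (‖a‖ + ‖b‖) a -
      Fs k (‖a‖ + ‖b‖) b) (F k (a + b) - Fs k (‖a‖ + ‖b‖) (a + b))
  have := norm_nonneg (a + b)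
  linarith

lemma F_smul (k : ℕ) (c : 𝕜) (a : L1 𝕜) : F k (c • a) = c * F k a := by
  by_cases hc : c = 0
  · subst hc; simp
  unfold F Fs
  rw [norm_smul, ← tsum_mul_left]
  congr 1
  funext n
  exact psi_smul k ‖a‖ c (a n) hc

lemma F_neg (k : ℕ) (a : L1 𝕜) : F k (-a) = - F k a := by
  have := F_smul k (-1 : 𝕜) a
  simpa using this

/-- sum over a finite family moved by an injective map -/
lemma tsum_moved {β : Type} [AddCommMonoid β] [TopologicalSpace β] [T2Space β]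
    (I : Finset ℕ) (g : ℕ → ℕ) (hg : Set.InjOn g I) (a : ℕ → 𝕜) (Ψ : 𝕜 → β) (h0 : Ψ 0 = 0) :
    ∑' j, Ψ ((∑ i ∈ I, lp.single 1 (g i) (a i) : L1 𝕜) j) = ∑ i ∈ I, Ψ (a i) := by
  have hval : ∀ j, (∑ i ∈ I, lp.single 1 (g i) (a i) : L1 𝕜) j =
      ∑ i ∈ I, if j = g i then a i else 0 := by
    intro j
    rw [lp.coeFn_sum, Finset.sum_apply]
    refine Finset.sum_congr rfl fun i _ => ?_
    rw [lp.single_apply, Pi.single_apply]
  have hg1 : ∀ i ∈ I, (∑ i ∈ I, lp.single 1 (g i) (a i) : L1 𝕜) (g i) = a i := by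
    intro i hi
    rw [hval, Finset.sum_eq_single i]
    · simp
    · intro j hj hji
      rw [if_neg fun h => hji (hg hj hi h.symm)]
    · intro h; exact absurd hi h
  have hg2 : ∀ j, j ∉ I.image g → (∑ i ∈ I, lp.single 1 (g i) (a i) : L1 𝕜) j = 0 := by
    intro j hj
    rw [hval]
    apply Finset.sum_eq_zero
    intro i hi
    rw [if_neg fun h => hj (Finset.mem_image.2 ⟨i, hi, h.symm⟩)]
  rw [tsum_eq_sum (s := I.image g) (fun j hj => by rw [hg2 j hj, h0]),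
    Finset.sum_image hg]
  exact Finset.sum_congr rfl fun i hi => by rw [hg1 i hi]

lemma norm_moved (I : Finset ℕ) (g : ℕ → ℕ) (hg : Set.InjOn g I) (a : ℕ → 𝕜) :
    ‖(∑ i ∈ I, lp.single 1 (g i) (a i) : L1 𝕜)‖ = ∑ i ∈ I, ‖a i‖ := by
  rw [norm_eq]
  exact tsum_moved I g hg a (fun x => ‖x‖) norm_zero

/-- `F k` is invariant under moving the coordinates. -/
lemma F_moved (k : ℕ) (I : Finset ℕ) (g : ℕ → ℕ) (hg : Set.InjOn g I) (a : ℕ → 𝕜) :
    F k (∑ i ∈ I, lp.single 1 (g i) (a i) : L1 𝕜) = ∑ i ∈ I, psi k (∑ i ∈ I, ‖a i‖) (a i) := by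
  unfold F Fs
  rw [norm_moved I g hg a]
  exact tsum_moved I g hg a (psi k (∑ i ∈ I, ‖a i‖)) (psi_zero _ _)

end Functional

/-! ### The space -/

section Space

variable {𝕜 : Type} [RCLike 𝕜]

/-- the pieces of the quasi-norm -/
noncomputable def T (k : ℕ) (a : L1 𝕜) : ℝ := ‖a‖ + ‖F k a‖

lemma T_nonneg (k : ℕ) (a : L1 𝕜) : 0 ≤ T k a := add_nonneg (norm_nonneg _) (norm_nonneg _)

lemma norm_le_T (k : ℕ) (a : L1 𝕜) : ‖a‖ ≤ T k a := le_add_of_nonneg_right (norm_nonneg _)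

lemma T_add (k : ℕ) (a b : L1 𝕜) : T k (a + b) ≤ 6 * (T k a + T k b) := by
  unfold T
  have h1 := F_add k a b
  have h2 := norm_add_le a b
  have h3 : F k (a + b) = (F k (a + b) - F k a - F k b) + F k a + F k b := by ring
  have h4 := norm_add_le ((F k (a + b) - F k a - F k b) + F k a) (F k b)
  have h5 := norm_add_le (F k (a + b) - F k a - F k b) (F k a)
  rw [← h3] at h4
  have := norm_nonneg (F k a)
  have := norm_nonneg (F k b)
  linarith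

lemma T_smul (k : ℕ) (c : 𝕜) (a : L1 𝕜) : T k (c • a) = ‖c‖ * T k a := by
  unfold T; rw [F_smul, norm_smul, norm_mul]; ring

lemma T_neg (k : ℕ) (a : L1 𝕜) : T k (-a) = T k a := by
  unfold T; rw [F_neg, norm_neg, norm_neg]

lemma T_sub_comm (k : ℕ) (a b : L1 𝕜) : T k (a - b) = T k (b - a) := by
  rw [← T_neg, neg_sub]

@[simp] lemma T_zero (k : ℕ) : T k (0 : L1 𝕜) = 0 := by unfold T; simp

lemma T_le (k : ℕ) (a : L1 𝕜) : T k a ≤ (1 + k) * ‖a‖ := by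
  unfold T; have := norm_F_le k a; linarith

variable (𝕜)

/-- the finitely supported vectors -/
noncomputable def S : Submodule 𝕜 (L1 𝕜) :=
  Submodule.span 𝕜 (Set.range fun n : ℕ => (lp.single 1 n (1 : 𝕜) : L1 𝕜))

variable {𝕜}

lemma T_single (k n : ℕ) : T k (lp.single 1 n (1 : 𝕜) : L1 𝕜) = 1 := by
  have h1 : F k (∑ i ∈ ({n} : Finset ℕ), lp.single 1 (id i) ((fun _ => (1 : 𝕜)) i) : L1 𝕜) = 0 := by
    rw [F_moved k {n} id (Set.injOn_id _)]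
    simp [psi]
  rw [Finset.sum_singleton] at h1
  unfold T
  have h2 : F k (lp.single 1 n (1 : 𝕜) : L1 𝕜) = 0 := h1
  rw [h2, norm_zero, add_zero, lp.norm_single (by norm_num), norm_one]

lemma bounded_S (c : L1 𝕜) (hc : c ∈ S 𝕜) : ∃ R, ∀ k, T k c ≤ R := by
  induction hc using Submodule.span_induction with
  | mem c hc =>
    obtain ⟨n, rfl⟩ := hc
    exact ⟨1, fun k => (T_single k n).le⟩
  | zero => exact ⟨0, fun k => by simp⟩
  | add a b _ _ ha hb =>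
    obtain ⟨R, hR⟩ := ha
    obtain ⟨R', hR'⟩ := hb
    exact ⟨6 * (R + R'), fun k => (T_add k a b).trans (by linarith [hR k, hR' k])⟩
  | smul t a _ ha =>
    obtain ⟨R, hR⟩ := ha
    exact ⟨‖t‖ * R, fun k => by
      rw [T_smul]; exact mul_le_mul_of_nonneg_left (hR k) (norm_nonneg t)⟩

variable (𝕜)

/-- The space: the vectors of `ℓ₁` which are limits of finitely supported vectors for the
quasi-norm `sup_k T k`. -/
noncomputable def XX : Submodule 𝕜 (L1 𝕜) where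
  carrier := {a | ∀ δ > 0, ∃ c ∈ S 𝕜, ∀ k, T k (a - c) ≤ δ}
  zero_mem' := fun δ hδ => ⟨0, Submodule.zero_mem _, fun k => by simp [hδ.le]⟩
  add_mem' := by
    intro a b ha hb δ hδ
    obtain ⟨c, hc, h1⟩ := ha (δ / 12) (by linarith)
    obtain ⟨d, hd, h2⟩ := hb (δ / 12) (by linarith)
    refine ⟨c + d, Submodule.add_mem _ hc hd, fun k => ?_⟩
    have h3 : a + b - (c + d) = (a - c) + (b - d) := by abel
    rw [h3]
    have := T_add k (a - c) (b - d)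
    have := h1 k
    have := h2 k
    linarith
  smul_mem' := by
    intro t a ha δ hδ
    obtain ⟨c, hc, h1⟩ := ha (δ / (‖t‖ + 1)) (by positivity)
    refine ⟨t • c, Submodule.smul_mem _ _ hc, fun k => ?_⟩
    rw [← smul_sub, T_smul]
    have h2 := mul_le_mul_of_nonneg_left (h1 k) (norm_nonneg t)
    refine h2.trans ?_
    rw [mul_div_assoc', div_le_iff₀ (by positivity)]
    nlinarith [norm_nonneg t]

variable {𝕜}

lemma mem_XX_iff (a : L1 𝕜) : a ∈ XX 𝕜 ↔ ∀ δ > 0, ∃ c ∈ S 𝕜, ∀ k, T k (a - c) ≤ δ := Iff.rfl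

lemma S_le_XX : S 𝕜 ≤ XX 𝕜 := fun c hc δ hδ => ⟨c, hc, fun k => by simp [hδ.le]⟩

lemma bdd (a : XX 𝕜) : BddAbove (Set.range fun k => T k (a : L1 𝕜)) := by
  obtain ⟨c, hc, h⟩ := a.2 1 one_pos
  obtain ⟨R, hR⟩ := bounded_S c hc
  refine ⟨6 * (1 + R), ?_⟩
  rintro _ ⟨k, rfl⟩
  have h1 := T_add k ((a : L1 𝕜) - c) c
  rw [sub_add_cancel] at h1
  have := h k
  have := hR k
  simp only
  linarith

/-- the quasi-norm -/
noncomputable def q (a : XX 𝕜) : ℝ := ⨆ k, T k (a : L1 𝕜)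

lemma T_le_q (k : ℕ) (a : XX 𝕜) : T k (a : L1 𝕜) ≤ q a := le_ciSup (bdd a) k

lemma q_le {a : XX 𝕜} {R : ℝ} (h : ∀ k, T k (a : L1 𝕜) ≤ R) : q a ≤ R := ciSup_le h

lemma norm_le_q (a : XX 𝕜) : ‖(a : L1 𝕜)‖ ≤ q a := (norm_le_T 0 _).trans (T_le_q 0 a)

lemma q_nonneg (a : XX 𝕜) : 0 ≤ q a := (norm_nonneg _).trans (norm_le_q a)

lemma q_add (a b : XX 𝕜) : q (a + b) ≤ 6 * (q a + q b) :=
  q_le fun k => (T_add k (a : L1 𝕜) (b : L1 𝕜)).trans
    (by linarith [T_le_q k a, T_le_q k b])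

lemma q_smul (c : 𝕜) (a : XX 𝕜) : q (c • a) = ‖c‖ * q a := by
  unfold q
  rw [Real.mul_iSup_of_nonneg (norm_nonneg c)]
  congr 1
  funext k
  exact T_smul k c (a : L1 𝕜)

lemma complete (u : ℕ → XX 𝕜)
    (hu : ∀ δ > 0, ∃ N : ℕ, ∀ m ≥ N, ∀ n ≥ N, q (u m - u n) < δ) :
    ∃ x : XX 𝕜, ∀ δ > 0, ∃ N : ℕ, ∀ n ≥ N, q (u n - x) < δ := by
  have hc : CauchySeq fun n => ((u n : XX 𝕜) : L1 𝕜) := by
    rw [Metric.cauchySeq_iff]
    intro δ hδ
    obtain ⟨N, hN⟩ := hu δ hδ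
    refine ⟨N, fun m hm n hn => ?_⟩
    rw [dist_eq_norm]
    exact (norm_le_q (u m - u n)).trans_lt (hN m hm n hn)
  obtain ⟨a, ha⟩ := cauchySeq_tendsto_of_complete hc
  have key : ∀ δ > 0, ∃ N : ℕ, ∀ m ≥ N, ∀ k, T k ((u m : L1 𝕜) - a) ≤ 12 * δ := by
    intro δ hδ
    obtain ⟨N, hN⟩ := hu δ hδ
    refine ⟨N, fun m hm k => ?_⟩
    obtain ⟨M, hM⟩ := (Metric.tendsto_atTop.1 ha) (δ / (1 + k)) (by positivity)
    have h1 := hM (max M N) (le_max_left _ _)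
    have h2 := (T_le_q k _).trans_lt (hN m hm (max M N) (le_max_right _ _))
    rw [dist_eq_norm] at h1
    have h3 : T k ((u (max M N) : L1 𝕜) - a) ≤ δ := by
      refine (T_le k _).trans ?_
      have h4 := (lt_div_iff₀ (by positivity : (0 : ℝ) < 1 + k)).1 h1
      linarith
    have h4 : (u m : L1 𝕜) - a = ((u m : L1 𝕜) - (u (max M N) : L1 𝕜)) +
        ((u (max M N) : L1 𝕜) - a) := by abel
    rw [h4]
    have h5 := T_add k ((u m : L1 𝕜) - (u (max M N) : L1 𝕜)) ((u (max M N) : L1 𝕜) - a)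
    have h6 : T k ((u m : L1 𝕜) - (u (max M N) : L1 𝕜)) < δ := h2
    linarith
  have haX : a ∈ XX 𝕜 := by
    intro δ hδ
    obtain ⟨N, hN⟩ := key (δ / 78) (by linarith)
    obtain ⟨c, hc, h1⟩ := (u N).2 (δ / 78) (by linarith)
    refine ⟨c, hc, fun k => ?_⟩
    have h2 : a - c = (a - (u N : L1 𝕜)) + ((u N : L1 𝕜) - c) := by abel
    rw [h2]
    have h3 := T_add k (a - (u N : L1 𝕜)) ((u N : L1 𝕜) - c)
    have h4 := hN N le_rfl k
    rw [T_sub_comm] at h4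
    have h5 := h1 k
    linarith
  refine ⟨⟨a, haX⟩, fun δ hδ => ?_⟩
  obtain ⟨N, hN⟩ := key (δ / 24) (by linarith)
  refine ⟨N, fun n hn => ?_⟩
  have : q (u n - ⟨a, haX⟩) ≤ 12 * (δ / 24) := q_le fun k => hN n hn k
  linarith

lemma isQuasiBanach : IsQuasiBanach 𝕜 (q (𝕜 := 𝕜)) where
  nonneg := q_nonneg
  eq_zero_iff x := by
    constructor
    · intro h
      have h1 := norm_le_q x
      rw [h] at h1
      exact Subtype.ext (norm_eq_zero.1 (le_antisymm h1 (norm_nonneg _)))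
    · rintro rfl
      refine le_antisymm (q_le fun k => ?_) (q_nonneg _)
      exact (T_zero k).le
  smul := q_smul
  quasi_triangle := ⟨6, q_add⟩
  complete := complete

/-- the basis -/
noncomputable def e (𝕜 : Type) [RCLike 𝕜] (n : ℕ) : XX 𝕜 :=
  ⟨lp.single 1 n (1 : 𝕜), S_le_XX (Submodule.subset_span ⟨n, rfl⟩)⟩

/-- the coordinate functionals -/
noncomputable def f (𝕜 : Type) [RCLike 𝕜] (n : ℕ) : XX 𝕜 →ₗ[𝕜] 𝕜 where
  toFun a := (a : L1 𝕜) n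
  map_add' _ _ := rfl
  map_smul' _ _ := rfl

lemma f_apply (n : ℕ) (a : XX 𝕜) : f 𝕜 n a = (a : L1 𝕜) n := rfl

lemma f_e (k n : ℕ) : f 𝕜 k (e 𝕜 n) = if k = n then 1 else 0 := by
  rw [f_apply]
  show (lp.single 1 n (1 : 𝕜) : L1 𝕜) k = _
  rw [lp.single_apply, Pi.single_apply]

lemma isSemiNormalizedMBasis : IsSemiNormalizedMBasis (q (𝕜 := 𝕜)) (e 𝕜) (f 𝕜) where
  biorthogonal := f_e
  dense_span x δ hδ := by
    obtain ⟨c, hc, h⟩ := x.2 (δ / 2) (by linarith)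
    have hmap : S 𝕜 = (Submodule.span 𝕜 (Set.range (e 𝕜))).map (XX 𝕜).subtype := by
      rw [Submodule.map_span, S]
      congr 1
      ext y
      simp only [Set.mem_range, Set.mem_image]
      constructor
      · rintro ⟨n, rfl⟩
        exact ⟨e 𝕜 n, ⟨n, rfl⟩, rfl⟩
      · rintro ⟨_, ⟨n, rfl⟩, rfl⟩
        exact ⟨n, rfl⟩
    rw [hmap, Submodule.mem_map] at hc
    obtain ⟨y, hy, rfl⟩ := hc
    refine ⟨y, hy, ?_⟩
    have h2 : q (x - y) ≤ δ / 2 := q_le h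
    linarith
  total x h := Subtype.ext (lp.ext (funext h))
  bounded := by
    refine ⟨1, fun n => ⟨q_le fun k => (T_single k n).le, fun x => ?_⟩⟩
    rw [one_mul]
    exact (norm_apply_le (x : L1 𝕜) n).trans (norm_le_q x)

lemma exists_inj (I J : Finset ℕ) (h : I.card ≤ J.card) :
    ∃ g : ℕ → ℕ, Set.InjOn g I ∧ ∀ i ∈ I, g i ∈ J := by
  obtain ⟨J', hJ', hc⟩ := Finset.exists_subset_card_eq h
  let φ := Finset.equivOfCardEq hc.symm
  refine ⟨fun n => if hn : n ∈ I then (φ ⟨n, hn⟩ : ℕ) else 0, ?_, ?_⟩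
  · intro a ha b hb hab
    have ha' : a ∈ I := ha
    have hb' : b ∈ I := hb
    simp only [dif_pos ha', dif_pos hb'] at hab
    have := φ.injective (Subtype.ext hab)
    exact congrArg Subtype.val this
  · intro i hi
    simp only [dif_pos hi]
    exact hJ' (φ ⟨i, hi⟩).2

lemma sum_apply_moved (I : Finset ℕ) (g : ℕ → ℕ) (a : ℕ → 𝕜) (j : ℕ) :
    (∑ i ∈ I, lp.single 1 (g i) (a i) : L1 𝕜) j = ∑ i ∈ I, if j = g i then a i else 0 := by
  rw [lp.coeFn_sum, Finset.sum_apply]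
  refine Finset.sum_congr rfl fun i _ => ?_
  rw [lp.single_apply, Pi.single_apply]

lemma moved_mem_S (I : Finset ℕ) (g : ℕ → ℕ) (a : ℕ → 𝕜) :
    (∑ i ∈ I, lp.single 1 (g i) (a i) : L1 𝕜) ∈ S 𝕜 := by
  refine Submodule.sum_mem _ fun i _ => ?_
  have : (lp.single 1 (g i) (a i) : L1 𝕜) = a i • (lp.single 1 (g i) (1 : 𝕜) : L1 𝕜) := by
    rw [← lp.single_smul, smul_eq_mul, mul_one]
  rw [this]
  exact Submodule.smul_mem _ _ (Submodule.subset_span ⟨g i, rfl⟩)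

lemma coe_sum_e (A : Finset ℕ) (a : ℕ → 𝕜) :
    ((∑ n ∈ A, a n • e 𝕜 n : XX 𝕜) : L1 𝕜) = ∑ n ∈ A, lp.single 1 (id n) (a n) := by
  rw [Submodule.coe_sum]
  refine Finset.sum_congr rfl fun n _ => ?_
  show a n • (lp.single 1 n (1 : 𝕜) : L1 𝕜) = _
  rw [← lp.single_smul, smul_eq_mul, mul_one]
  rfl

lemma f_sum (A : Finset ℕ) (a : ℕ → 𝕜) (k : ℕ) :
    f 𝕜 k (∑ n ∈ A, a n • e 𝕜 n) = if k ∈ A then a k else 0 := by
  rw [map_sum]
  simp only [map_smul, f_e, smul_eq_mul, mul_ite, mul_one, mul_zero]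
  rw [Finset.sum_ite_eq]

lemma sum_norm_le (z : L1 𝕜) (I : Finset ℕ) : ∑ i ∈ I, ‖z i‖ ≤ ‖z‖ := by
  rw [norm_eq]
  exact (summable_norm z).sum_le_tsum I fun _ _ => norm_nonneg _

/-- the semi-greedy estimate -/
lemma semi_key (x : XX 𝕜) (A B : Finset ℕ) (b : ℕ → 𝕜) (hA : IsGreedySet (f 𝕜) x A)
    (hB : B.card ≤ A.card) :
    (∃ a : ℕ → 𝕜, q (x - ∑ n ∈ A, a n • e 𝕜 n) ≤ 75 * q (x - ∑ n ∈ B, b n • e 𝕜 n)) ∧
      ∀ j ∉ A, ‖(x : L1 𝕜) j‖ ≤ q (x - ∑ n ∈ B, b n • e 𝕜 n) := by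
  set z : XX 𝕜 := x - ∑ n ∈ B, b n • e 𝕜 n with hz
  obtain ⟨g, hg, hgI⟩ := exists_inj (B \ A) (A \ B) (Finset.card_sdiff_le_card_sdiff_iff.2 hB)
  set I := B \ A with hI
  have hzj : ∀ j, j ∉ B → (z : L1 𝕜) j = (x : L1 𝕜) j := by
    intro j hj
    have h1 : f 𝕜 j z = f 𝕜 j x - f 𝕜 j (∑ n ∈ B, b n • e 𝕜 n) := by rw [hz, map_sub]
    rw [f_sum, if_neg hj, sub_zero] at h1
    exact h1
  have hxg : ∀ i ∈ I, ‖(x : L1 𝕜) i‖ ≤ ‖(z : L1 𝕜) (g i)‖ := by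
    intro i hi
    have h1 := Finset.mem_sdiff.1 (hgI i hi)
    have h2 := (Finset.mem_sdiff.1 hi).2
    rw [hzj (g i) h1.2]
    exact hA (g i) h1.1 i h2
  have hzn : ‖(z : L1 𝕜)‖ ≤ q z := norm_le_q z
  refine ⟨?_, ?_⟩
  · set v1 : L1 𝕜 := ∑ i ∈ I, lp.single 1 (id i) ((z : L1 𝕜) i) with hv1
    set v2 : L1 𝕜 := ∑ i ∈ I, lp.single 1 (id i) ((x : L1 𝕜) i) with hv2
    set u1 : L1 𝕜 := ∑ i ∈ I, lp.single 1 (g i) ((z : L1 𝕜) i) with hu1
    set u2 : L1 𝕜 := ∑ i ∈ I, lp.single 1 (g i) ((x : L1 𝕜) i) with hu2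
    have hF1 : ∀ k, F k v1 = F k u1 := fun k => by
      rw [hv1, hu1, F_moved k I id (Set.injOn_id _), F_moved k I g hg]
    have hF2 : ∀ k, F k v2 = F k u2 := fun k => by
      rw [hv2, hu2, F_moved k I id (Set.injOn_id _), F_moved k I g hg]
    have nv1 : ‖v1‖ ≤ ‖(z : L1 𝕜)‖ := by
      rw [hv1, norm_moved I id (Set.injOn_id _)]; exact sum_norm_le _ I
    have nu1 : ‖u1‖ ≤ ‖(z : L1 𝕜)‖ := by
      rw [hu1, norm_moved I g hg]; exact sum_norm_le _ I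
    have hsx : ∑ i ∈ I, ‖(x : L1 𝕜) i‖ ≤ ‖(z : L1 𝕜)‖ := by
      refine (Finset.sum_le_sum hxg).trans ?_
      rw [← Finset.sum_image (f := fun j => ‖(z : L1 𝕜) j‖) hg]
      exact sum_norm_le _ _
    have nv2 : ‖v2‖ ≤ ‖(z : L1 𝕜)‖ := by
      rw [hv2, norm_moved I id (Set.injOn_id _)]; exact hsx
    have nu2 : ‖u2‖ ≤ ‖(z : L1 𝕜)‖ := by
      rw [hu2, norm_moved I g hg]; exact hsx
    set y : L1 𝕜 := (z : L1 𝕜) + (-v1) + v2 + u1 + (-u2) with hy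
    have hyT : ∀ k, T k y ≤ 75 * q z := by
      intro k
      have a1 := F_add k (z : L1 𝕜) (-v1)
      have a2 := F_add k ((z : L1 𝕜) + (-v1)) v2
      have a3 := F_add k ((z : L1 𝕜) + (-v1) + v2) u1
      have a4 := F_add k ((z : L1 𝕜) + (-v1) + v2 + u1) (-u2)
      rw [F_neg] at a1 a4
      rw [norm_neg] at a1 a4
      have m1 := norm_add_le (z : L1 𝕜) (-v1)
      have m2 := norm_add_le ((z : L1 𝕜) + (-v1)) v2
      have m3 := norm_add_le ((z : L1 𝕜) + (-v1) + v2) u1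
      have m4 := norm_add_le ((z : L1 𝕜) + (-v1) + v2 + u1) (-u2)
      rw [norm_neg] at m1 m4
      have hid : F k y =
          (F k ((z : L1 𝕜) + (-v1)) - F k (z : L1 𝕜) - -F k v1) +
          (F k ((z : L1 𝕜) + (-v1) + v2) - F k ((z : L1 𝕜) + (-v1)) - F k v2) +
          (F k ((z : L1 𝕜) + (-v1) + v2 + u1) - F k ((z : L1 𝕜) + (-v1) + v2) - F k u1) +
          (F k ((z : L1 𝕜) + (-v1) + v2 + u1 + (-u2)) -
            F k ((z : L1 𝕜) + (-v1) + v2 + u1) - -F k u2) + F k (z : L1 𝕜) := by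
        rw [hy, hF1 k, hF2 k]; ring
      have b1 := norm_add_le ((F k ((z : L1 𝕜) + (-v1)) - F k (z : L1 𝕜) - -F k v1) +
          (F k ((z : L1 𝕜) + (-v1) + v2) - F k ((z : L1 𝕜) + (-v1)) - F k v2) +
          (F k ((z : L1 𝕜) + (-v1) + v2 + u1) - F k ((z : L1 𝕜) + (-v1) + v2) - F k u1) +
          (F k ((z : L1 𝕜) + (-v1) + v2 + u1 + (-u2)) -
            F k ((z : L1 𝕜) + (-v1) + v2 + u1) - -F k u2)) (F k (z : L1 𝕜))
      have b2 := norm_add₄_le (a := F k ((z : L1 𝕜) + (-v1)) - F k (z : L1 𝕜) - -F k v1)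
          (b := F k ((z : L1 𝕜) + (-v1) + v2) - F k ((z : L1 𝕜) + (-v1)) - F k v2)
          (c := F k ((z : L1 𝕜) + (-v1) + v2 + u1) - F k ((z : L1 𝕜) + (-v1) + v2) - F k u1)
          (d := F k ((z : L1 𝕜) + (-v1) + v2 + u1 + (-u2)) -
            F k ((z : L1 𝕜) + (-v1) + v2 + u1) - -F k u2)
      rw [← hid] at b1
      have hq := T_le_q k z
      unfold T at hq ⊢
      have := norm_nonneg (F k (z : L1 𝕜))
      have := norm_nonneg (z : L1 𝕜)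
      rw [← hy] at m4
      linarith
    have hyX : y ∈ XX 𝕜 :=
      Submodule.add_mem _ (Submodule.add_mem _ (Submodule.add_mem _ (Submodule.add_mem _ z.2
        (Submodule.neg_mem _ (S_le_XX (moved_mem_S _ _ _)))) (S_le_XX (moved_mem_S _ _ _)))
        (S_le_XX (moved_mem_S _ _ _))) (Submodule.neg_mem _ (S_le_XX (moved_mem_S _ _ _)))
    refine ⟨fun n => (x : L1 𝕜) n - y n, ?_⟩
    have hfin : (x - ∑ n ∈ A, ((x : L1 𝕜) n - y n) • e 𝕜 n : XX 𝕜) = ⟨y, hyX⟩ := by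
      apply Subtype.ext
      apply lp.ext
      funext j
      have h1 : f 𝕜 j (x - ∑ n ∈ A, ((x : L1 𝕜) n - y n) • e 𝕜 n) =
          (x : L1 𝕜) j - (if j ∈ A then (x : L1 𝕜) j - y j else 0) := by
        rw [map_sub, f_sum]; rfl
      have h2 : ((x - ∑ n ∈ A, ((x : L1 𝕜) n - y n) • e 𝕜 n : XX 𝕜) : L1 𝕜) j =
          (x : L1 𝕜) j - (if j ∈ A then (x : L1 𝕜) j - y j else 0) := h1
      show ((x - ∑ n ∈ A, ((x : L1 𝕜) n - y n) • e 𝕜 n : XX 𝕜) : L1 𝕜) j = y j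
      rw [h2]
      by_cases hjA : j ∈ A
      · rw [if_pos hjA]; ring
      · rw [if_neg hjA, sub_zero]
        have hyj : y j = (z : L1 𝕜) j - v1 j + v2 j + u1 j - u2 j := by
          show (z : L1 𝕜) j + (-(v1 j)) + v2 j + u1 j + (-(u2 j)) = _
          ring
        have hu1j : u1 j = 0 := by
          rw [hu1, sum_apply_moved]
          refine Finset.sum_eq_zero fun i hi => if_neg fun h => hjA ?_
          rw [h]; exact (Finset.mem_sdiff.1 (hgI i hi)).1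
        have hu2j : u2 j = 0 := by
          rw [hu2, sum_apply_moved]
          refine Finset.sum_eq_zero fun i hi => if_neg fun h => hjA ?_
          rw [h]; exact (Finset.mem_sdiff.1 (hgI i hi)).1
        have hv1j : v1 j = if j ∈ I then (z : L1 𝕜) j else 0 := by
          rw [hv1, sum_apply_moved]; simp only [id]; rw [Finset.sum_ite_eq]
        have hv2j : v2 j = if j ∈ I then (x : L1 𝕜) j else 0 := by
          rw [hv2, sum_apply_moved]; simp only [id]; rw [Finset.sum_ite_eq]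
        rw [hyj, hu1j, hu2j, hv1j, hv2j]
        by_cases hjB : j ∈ B
        · have hjI : j ∈ I := Finset.mem_sdiff.2 ⟨hjB, hjA⟩
          rw [if_pos hjI, if_pos hjI]; ring
        · have hjI : j ∉ I := fun h => hjB (Finset.mem_sdiff.1 h).1
          rw [if_neg hjI, if_neg hjI, hzj j hjB]; ring
    rw [hfin]
    exact q_le hyT
  · intro j hj
    by_cases hjB : j ∈ B
    · exact (hxg j (Finset.mem_sdiff.2 ⟨hjB, hj⟩)).trans ((norm_apply_le _ _).trans hzn)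
    · rw [← hzj j hjB]; exact (norm_apply_le _ _).trans hzn

lemma semiGreedy : SemiGreedy (q (𝕜 := 𝕜)) (e 𝕜) (f 𝕜) := by
  refine ⟨150, fun x A hA => ?_⟩
  set R := {r : ℝ | ∃ (B : Finset ℕ) (a : ℕ → 𝕜), B.card ≤ A.card ∧
    r = q (x - ∑ n ∈ B, a n • e 𝕜 n)} with hR
  have hne : R.Nonempty := ⟨_, ∅, fun _ => 0, by simp, rfl⟩
  have hσ : sigma 𝕜 q (e 𝕜) A.card x = sInf R := rfl
  rw [hσ]
  have h0 : 0 ≤ sInf R := by
    apply Real.sInf_nonneg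
    rintro r ⟨B, b, _, rfl⟩
    exact q_nonneg _
  rcases h0.eq_or_lt with h | h
  · refine ⟨fun n => (x : L1 𝕜) n, ?_⟩
    rw [← h, mul_zero]
    have hx : x - ∑ n ∈ A, (x : L1 𝕜) n • e 𝕜 n = 0 := by
      apply Subtype.ext
      apply lp.ext
      funext j
      have h1 : f 𝕜 j (x - ∑ n ∈ A, (x : L1 𝕜) n • e 𝕜 n) =
          (x : L1 𝕜) j - (if j ∈ A then (x : L1 𝕜) j else 0) := by
        rw [map_sub, f_sum]; rfl
      show ((x - ∑ n ∈ A, (x : L1 𝕜) n • e 𝕜 n : XX 𝕜) : L1 𝕜) j = 0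
      refine h1.trans ?_
      by_cases hj : j ∈ A
      · rw [if_pos hj, sub_self]
      · rw [if_neg hj, sub_zero]
        have h2 : ‖(x : L1 𝕜) j‖ ≤ sInf R := by
          apply le_csInf hne
          rintro r ⟨B, b, hB, rfl⟩
          exact (semi_key x A B b hA hB).2 j hj
        rw [← h] at h2
        exact norm_eq_zero.1 (le_antisymm h2 (norm_nonneg _))
    rw [hx, (isQuasiBanach.eq_zero_iff (0 : XX 𝕜)).2 rfl]
  · obtain ⟨r, ⟨B, b, hB, rfl⟩, hr⟩ := exists_lt_of_csInf_lt hne (by linarith : sInf R < 2 * sInf R)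
    obtain ⟨a, ha⟩ := (semi_key x A B b hA hB).1
    exact ⟨a, ha.trans (by linarith)⟩

/-- the test vectors -/
noncomputable def tv (𝕜 : Type) [RCLike 𝕜] (n : ℕ) : XX 𝕜 :=
  ∑ i ∈ Finset.range (2 * n), (if i < n then (1 : 𝕜) else -1) • e 𝕜 i

lemma f_tv (n j : ℕ) : f 𝕜 j (tv 𝕜 n) =
    if j < 2 * n then (if j < n then (1 : 𝕜) else -1) else 0 := by
  unfold tv; rw [f_sum]; simp only [Finset.mem_range]

lemma norm_f_tv (n j : ℕ) : ‖f 𝕜 j (tv 𝕜 n)‖ = if j < 2 * n then 1 else 0 := by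
  rw [f_tv]; split_ifs <;> simp

lemma q_tv (n : ℕ) : q (tv 𝕜 n) ≤ 2 * n := by
  refine q_le fun k => ?_
  have h1 : (tv 𝕜 n : L1 𝕜) = ∑ i ∈ Finset.range (2 * n),
      lp.single 1 (id i) (if i < n then (1 : 𝕜) else -1) := by
    unfold tv; rw [coe_sum_e]
  have hone : ∀ i, ‖(if i < n then (1 : 𝕜) else -1)‖ = 1 := by
    intro i; split_ifs <;> simp
  unfold T
  rw [h1, norm_moved _ id (Set.injOn_id _), F_moved _ _ id (Set.injOn_id _)]
  simp only [hone, Finset.sum_const, Finset.card_range, nsmul_eq_mul, mul_one]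
  have h2 : ∑ i ∈ Finset.range (2 * n), psi k ((2 * n : ℕ) : ℝ) (if i < n then (1 : 𝕜) else -1) = 0 := by
    unfold psi
    simp only [hone]
    rw [← Finset.mul_sum]
    have h3 : ∑ i ∈ Finset.range (2 * n), (if i < n then (1 : 𝕜) else -1) = 0 := by
      rw [two_mul, Finset.sum_range_add]
      have e1 : ∑ x ∈ Finset.range n, (if x < n then (1 : 𝕜) else -1) = n := by
        rw [Finset.sum_congr rfl (g := fun _ => (1 : 𝕜)) fun i hi => if_pos (Finset.mem_range.1 hi)]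
        simp
      have e2 : ∑ x ∈ Finset.range n, (if n + x < n then (1 : 𝕜) else -1) = -n := by
        rw [Finset.sum_congr rfl (g := fun _ => (-1 : 𝕜)) fun i _ => if_neg (by omega)]
        simp
      rw [e1, e2]; ring
    rw [h3, mul_zero]
  rw [h2, norm_zero]
  push_cast; linarith

lemma not_almostGreedy : ¬ AlmostGreedy (q (𝕜 := 𝕜)) (e 𝕜) (f 𝕜) := by
  rintro ⟨C, hC⟩
  -- choose `n` with `log n > 2 |C|`
  obtain ⟨k, hk⟩ := exists_nat_gt (2 * |C|)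
  obtain ⟨n, hn⟩ := exists_nat_gt (Real.exp k)
  have hn0 : (0 : ℝ) < n := (Real.exp_pos _).trans hn
  have hlog : (k : ℝ) ≤ Real.log n := by
    rw [Real.le_log_iff_exp_le hn0]; exact hn.le
  set A := Finset.Ico n (2 * n) with hAdef
  have hA : IsGreedySet (f 𝕜) (tv 𝕜 n) A := by
    intro m hm j _
    rw [Finset.mem_Ico] at hm
    rw [norm_f_tv, norm_f_tv, if_pos hm.2]
    split_ifs <;> norm_num
  have h1 := hC (tv 𝕜 n) A hA
  have h2 : sInf {r : ℝ | ∃ B : Finset ℕ, B.card ≤ A.card ∧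
      r = q (tv 𝕜 n - proj (e 𝕜) (f 𝕜) B (tv 𝕜 n))} ≤ 2 * n := by
    have h2' : sInf {r : ℝ | ∃ B : Finset ℕ, B.card ≤ A.card ∧
        r = q (tv 𝕜 n - proj (e 𝕜) (f 𝕜) B (tv 𝕜 n))} ≤
        q (tv 𝕜 n - proj (e 𝕜) (f 𝕜) ∅ (tv 𝕜 n)) := by
      refine csInf_le ⟨0, ?_⟩ ⟨∅, by simp, rfl⟩
      rintro r ⟨B, _, rfl⟩; exact q_nonneg _
    refine h2'.trans ?_
    simp only [proj, Finset.sum_empty, sub_zero]; exact q_tv n
  have h3 : 0 ≤ sInf {r : ℝ | ∃ B : Finset ℕ, B.card ≤ A.card ∧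
      r = q (tv 𝕜 n - proj (e 𝕜) (f 𝕜) B (tv 𝕜 n))} := by
    apply Real.sInf_nonneg
    rintro r ⟨B, _, rfl⟩
    exact q_nonneg _
  have h4 : tv 𝕜 n - proj (e 𝕜) (f 𝕜) A (tv 𝕜 n) =
      ∑ i ∈ Finset.range n, (fun _ => (1 : 𝕜)) i • e 𝕜 i := by
    apply Subtype.ext
    apply lp.ext
    funext j
    have e1 : f 𝕜 j (tv 𝕜 n - proj (e 𝕜) (f 𝕜) A (tv 𝕜 n)) =
        f 𝕜 j (∑ i ∈ Finset.range n, (fun _ => (1 : 𝕜)) i • e 𝕜 i) := by
      rw [map_sub, proj, f_sum, f_sum, f_tv]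
      simp only [hAdef, Finset.mem_Ico, Finset.mem_range]
      by_cases hj1 : j < n
      · rw [if_pos (by omega), if_pos hj1, if_neg (by omega), if_pos hj1, sub_zero]
      · by_cases hj2 : j < 2 * n
        · rw [if_pos hj2, if_neg hj1, if_pos ⟨by omega, hj2⟩, if_neg hj1, sub_self]
        · rw [if_neg hj2, if_neg (by omega), if_neg hj1, sub_zero]
    exact e1
  have h5 : (n : ℝ) * k ≤ q (tv 𝕜 n - proj (e 𝕜) (f 𝕜) A (tv 𝕜 n)) := by
    refine le_trans ?_ (T_le_q k _)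
    rw [h4, coe_sum_e]
    unfold T
    rw [norm_moved _ id (Set.injOn_id _), F_moved _ _ id (Set.injOn_id _)]
    simp only [norm_one, Finset.sum_const, Finset.card_range, nsmul_eq_mul, mul_one]
    have e1 : psi k (n : ℝ) (1 : 𝕜) = ((k : ℝ) : 𝕜) := by
      unfold psi
      rw [norm_one, div_one, min_eq_right hlog, mul_one]
    rw [e1, norm_mul, RCLike.norm_natCast, RCLike.norm_ofReal, Nat.abs_cast]
    linarith
  have h6 : C * sInf {r : ℝ | ∃ B : Finset ℕ, B.card ≤ A.card ∧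
      r = q (tv 𝕜 n - proj (e 𝕜) (f 𝕜) B (tv 𝕜 n))} ≤ |C| * (2 * n) :=
    (mul_le_mul_of_nonneg_right (le_abs_self C) h3).trans
      (mul_le_mul_of_nonneg_left h2 (abs_nonneg C))
  have h7 : (n : ℝ) * k ≤ |C| * (2 * n) := h5.trans (h1.trans h6)
  have h8 : (n : ℝ) * k ≤ n * (2 * |C|) := by linarith
  have h9 := le_of_mul_le_mul_left h8 hn0
  linarith

end Space

/-- Over `𝕜 = ℝ` and over `𝕜 = ℂ` there is a quasi-Banach space with a semi-normalized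
Markushevich basis that is semi-greedy but not almost-greedy. -/
theorem result (𝕜 : Type) [RCLike 𝕜] :
    ∃ (X : Type) (_ : AddCommGroup X) (_ : Module 𝕜 X) (q : X → ℝ)
      (e : ℕ → X) (f : ℕ → X →ₗ[𝕜] 𝕜),
      IsQuasiBanach 𝕜 q ∧ IsSemiNormalizedMBasis q e f ∧
      SemiGreedy q e f ∧ ¬ AlmostGreedy q e f :=
  ⟨XX 𝕜, inferInstance, inferInstance, q, e 𝕜, f 𝕜, isQuasiBanach, isSemiNormalizedMBasis,
    semiGreedy, not_almostGreedy⟩

end Pool.Agent.Results.MP_f45ea1_an.SemiNotAlmost
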